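import Pool.Agent.helper62.VN.SpecG
import Pool.Agent.helper61.VQE.UVX

/-!
# MP_07c750_an, project VN, row vne:GLH
-/

set_option autoImplicit false

open scoped MatrixGroups ContDiff Topology UpperHalfPlane
open UpperHalfPlane MeasureTheory Filter Set

namespace Pool.Agent.VNE

open Pool.Agent.RS Pool.Agent.VQE

/-- two numbers of size at most `A s` at a distance at most `A s d` -/
structure GLH_B (A s d x y : ℝ) : Prop where
  bx : |x| ≤ A * s
  ty : |y| ≤ A * s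
  bd : |x - y| ≤ A * s * d

theorem GLH_B.add {A B s d x y x' y' : ℝ} (h : GLH_B A s d x y) (h' : GLH_B B s d x' y') :
    GLH_B (A + B) s d (x + x') (y + y') := by
  refine ⟨?_, ?_, ?_⟩
  · refine (UVX_add h.bx h'.bx).trans (le_of_eq ?_)
    ring
  · refine (UVX_add h.ty h'.ty).trans (le_of_eq ?_)
    ring
  · have e : x + x' - (y + y') = (x - y) + (x' - y') := by ring
    rw [e]
    refine (UVX_add h.bd h'.bd).trans (le_of_eq ?_)
    ring

theorem GLH_B.neg {A s d x y : ℝ} (h : GLH_B A s d x y) : GLH_B A s d (-x) (-y) := by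
  refine ⟨?_, ?_, ?_⟩
  · rw [abs_neg]
    exact h.bx
  · rw [abs_neg]
    exact h.ty
  · have e : -x - -y = -(x - y) := by ring
    rw [e, abs_neg]
    exact h.bd

theorem GLH_B.mul {A B s d x y x' y' : ℝ} (h : GLH_B A s d x y) (h' : GLH_B B 1 d x' y') :
    GLH_B (2 * A * B) s d (x * x') (y * y') := by
  have h0 : 0 ≤ A * s := (abs_nonneg _).trans h.bx
  have h1 : 0 ≤ B * 1 := (abs_nonneg _).trans h'.bx
  have h2 : 0 ≤ A * s * (B * 1) := mul_nonneg h0 h1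
  refine ⟨?_, ?_, ?_⟩
  · refine (UVX_pm h.bx h'.bx).trans ?_
    nlinarith
  · refine (UVX_pm h.ty h'.ty).trans ?_
    nlinarith
  · refine (UVX_pd h.bd h'.bx h.ty h'.bd).trans (le_of_eq ?_)
    ring

theorem GLH_B.scale {A s d x y : ℝ} (h : GLH_B A s d x y) (hA : 0 ≤ A) (hs : s ≤ 1) (hd : 0 ≤ d) :
    GLH_B A 1 d x y := by
  have h1 : A * s ≤ A * 1 := mul_le_mul_of_nonneg_left hs hA
  exact ⟨h.bx.trans h1, h.ty.trans h1, h.bd.trans (mul_le_mul_of_nonneg_right h1 hd)⟩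

theorem GLH_B.mono {A B s d x y : ℝ} (h : GLH_B A s d x y) (hA : A ≤ B) (hs : 0 ≤ s)
    (hd : 0 ≤ d) : GLH_B B s d x y := by
  have h1 : A * s ≤ B * s := mul_le_mul_of_nonneg_right hA hs
  exact ⟨h.bx.trans h1, h.ty.trans h1, h.bd.trans (mul_le_mul_of_nonneg_right h1 hd)⟩

theorem GLH_cst {A s d x : ℝ} (h : |x| ≤ A * s) (hd : 0 ≤ d) : GLH_B A s d x x := by
  refine ⟨h, h, ?_⟩
  rw [sub_self, abs_zero]
  exact mul_nonneg ((abs_nonneg _).trans h) hd

theorem GLH_B.inv {A m d x y : ℝ} (h : GLH_B A 1 d x y) (hm : 0 < m) (hx : 1 ≤ m * x)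
    (hy : 1 ≤ m * y) : GLH_B (m + m * m * A) 1 d x⁻¹ y⁻¹ := by
  have hA : 0 ≤ A * 1 := (abs_nonneg _).trans h.bx
  have hA' : 0 ≤ m * m * A := by
    have := mul_nonneg (mul_nonneg hm.le hm.le) hA
    linarith
  have x0 : 0 < x := by
    by_contra hc
    push Not at hc
    nlinarith
  have y0 : 0 < y := by
    by_contra hc
    push Not at hc
    nlinarith
  have hx1 : |x⁻¹| ≤ m := by
    rw [abs_of_pos (inv_pos.mpr x0), inv_le_iff_one_le_mul₀ x0]
    exact hx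
  have hy1 : |y⁻¹| ≤ m := by
    rw [abs_of_pos (inv_pos.mpr y0), inv_le_iff_one_le_mul₀ y0]
    exact hy
  have hd0 : 0 ≤ A * 1 * d := (abs_nonneg _).trans h.bd
  refine ⟨?_, ?_, ?_⟩
  · linarith
  · linarith
  · have e : x⁻¹ - y⁻¹ = -(x - y) * (x⁻¹ * y⁻¹) := by
      field_simp
      ring
    rw [e]
    have h1 : |-(x - y)| ≤ A * 1 * d := by
      rw [abs_neg]
      exact h.bd
    refine (UVX_pm h1 (UVX_pm hx1 hy1)).trans ?_
    have hmd : 0 ≤ m * d ∨ A * 1 * d = 0 := by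
      rcases le_or_gt 0 d with hd | hd
      · exact Or.inl (mul_nonneg hm.le hd)
      · right
        nlinarith
    rcases hmd with hmd | hmd
    · nlinarith
    · have hdd : 0 ≤ d := by
        by_contra hc
        push Not at hc
        have hA0 : A = 0 := by nlinarith
        have := h.bx
        rw [hA0, zero_mul] at this
        have h5 := abs_nonneg x
        have h6 : |x| = 0 := le_antisymm this h5
        rw [abs_eq_zero] at h6
        linarith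
      have := mul_nonneg hm.le hdd
      nlinarith

theorem GLH_alg (A m : ℝ) (hA : 1 ≤ A) (hm : 1 ≤ m) : ∃ B : ℝ,
    ∀ (s d a a' p p' P P' q q' Q Q' e e' b b' σ σ' : ℝ), 0 ≤ s → s ≤ 1 → 0 ≤ d →
    GLH_B A 1 d a a' → GLH_B A 1 d p p' → GLH_B A 1 d P P' → GLH_B A 1 d q q' →
    GLH_B A 1 d Q Q' → GLH_B A s d (P - p) (P' - p') → GLH_B A s d (Q - q) (Q' - q') →
    GLH_B A s d b b' → GLH_B A s d e e' → 1 ≤ m * (a * P + e * Q) →
    1 ≤ m * (a' * P' + e' * Q') → σ = (a * p - e * q) / (a * P + e * Q) →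
    σ' = (a' * p' - e' * q') / (a' * P' + e' * Q') →
    GLH_B B s d (((P * σ + p) / 2 - 1) * b + a * (Q * σ - q))
      (((P' * σ' + p') / 2 - 1) * b' + a' * (Q' * σ' - q')) := by
  apply Exists.intro
  intro s d a a' p p' P P' q q' Q Q' e e' b b' σ σ' hs hs1 hd ha hp hP hq hQ hPp hQq hb he hD hD'
    hσ hσ'
  have hA0 : 0 ≤ A := by linarith
  have hm0 : 0 < m := by linarith
  have hDn := (ha.mul hP).add ((he.scale hA0 hs1 hd).mul hQ)
  have hi := hDn.inv hm0 hD hD'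
  have hS := (hPp.neg.mul ha).add (he.mul (hq.add hQ)).neg
  have hτ := hS.mul hi
  have hc1 : GLH_B 1 1 d 1 1 := GLH_cst (by norm_num) hd
  have hc2 : GLH_B 1 1 d (1 / 2) (1 / 2) := GLH_cst (by norm_num) hd
  have hT0 : 0 ≤ 2 * (2 * A * A + 2 * A * (A + A)) *
      (m + m * m * (2 * A * A + 2 * A * A)) := by positivity
  have hσ1 := hc1.add (hτ.scale hT0 hs1 hd)
  have h1 := (((hP.mul hσ1).add hp).mul hc2).add hc1.neg
  have h2 := hb.mul h1
  have h3 := hQq.add (hτ.mul hQ)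
  have h4 := h3.mul ha
  have h5 := h2.add h4
  have hne : a * P + e * Q ≠ 0 := by
    intro h0
    rw [h0, mul_zero] at hD
    linarith
  have hne' : a' * P' + e' * Q' ≠ 0 := by
    intro h0
    rw [h0, mul_zero] at hD'
    linarith
  have e1 : σ = 1 + (-(P - p) * a + -(e * (q + Q))) * (a * P + e * Q)⁻¹ := by
    rw [hσ]
    field_simp
    ring
  have e1' : σ' = 1 + (-(P' - p') * a' + -(e' * (q' + Q'))) * (a' * P' + e' * Q')⁻¹ := by
    rw [hσ']
    field_simp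
    ring
  have e2 : ((P * σ + p) / 2 - 1) * b + a * (Q * σ - q) =
      b * ((P * (1 + (-(P - p) * a + -(e * (q + Q))) * (a * P + e * Q)⁻¹) + p) * (1 / 2) + -1) +
        (Q - q + (-(P - p) * a + -(e * (q + Q))) * (a * P + e * Q)⁻¹ * Q) * a := by
    rw [e1]
    ring
  have e2' : ((P' * σ' + p') / 2 - 1) * b' + a' * (Q' * σ' - q') =
      b' * ((P' * (1 + (-(P' - p') * a' + -(e' * (q' + Q'))) * (a' * P' + e' * Q')⁻¹) + p') *
        (1 / 2) + -1) +
        (Q' - q' + (-(P' - p') * a' + -(e' * (q' + Q'))) * (a' * P' + e' * Q')⁻¹ * Q') * a' := by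
    rw [e1']
    ring
  rw [e2, e2']
  exact h5

theorem GLH_sm {K b : ℝ} (hK : 1 ≤ K) (hb : |b| ≤ 1 / (64 * K ^ 2)) :
    |b| ≤ 1 / 8 ∧ |b| ≤ 1 / K ∧ K ^ 2 * |b| ≤ 1 / 64 := by
  have hK2 : 0 < K ^ 2 := by positivity
  have h1 : K ^ 2 * |b| ≤ 1 / 64 := by
    have h := mul_le_mul_of_nonneg_left hb hK2.le
    have e : K ^ 2 * (1 / (64 * K ^ 2)) = 1 / 64 := by field_simp
    rw [e] at h
    exact h
  have h0 := abs_nonneg b
  have hKK : 1 ≤ K ^ 2 := by nlinarith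
  have hKK' : K ≤ K ^ 2 := by nlinarith
  refine ⟨by nlinarith, ?_, h1⟩
  rw [le_div_iff₀ (by linarith)]
  nlinarith

theorem GLH_low {K a b c P Q : ℝ} (hK : 1 ≤ K) (ha : 99 / 100 ≤ a)
    (hb : |b| ≤ 1 / (64 * K ^ 2)) (hc : |c| ≤ 1 / (64 * K ^ 2)) (hP : 1 / K ≤ P) (hQ : |Q| ≤ K) :
    1 ≤ 2 * K * (a * P + (b + c) * Q) := by
  obtain ⟨-, -, hb1⟩ := GLH_sm hK hb
  obtain ⟨-, -, hc1⟩ := GLH_sm hK hc
  have hKP : 1 ≤ P * K := by
    rw [div_le_iff₀ (by linarith)] at hP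
    exact hP
  have h1 : |(b + c) * Q| ≤ (|b| + |c|) * K := UVX_pm (abs_add_le b c) hQ
  have h2 := (abs_le.mp h1).1
  have h3 : K * ((b + c) * Q) ≥ -(K ^ 2 * |b| + K ^ 2 * |c|) := by
    have h4 := mul_le_mul_of_nonneg_left h2 (by linarith : (0 : ℝ) ≤ K)
    have e : K * -((|b| + |c|) * K) = -(K ^ 2 * |b| + K ^ 2 * |c|) := by ring
    rw [e] at h4
    exact h4
  have h5 : 99 / 100 ≤ a * (P * K) := by nlinarith
  nlinarith

theorem GLH_ph {K : ℝ} (hK : 1 ≤ K) {p : SL(2, ℝ) → ℝ} (pb : ∀ g, |p g| ≤ K)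
    (lip : ∀ g D, |p (g * D) - p g| ≤ K * nm D) {g : SL(2, ℝ)} {b c b' c' : ℝ}
    (hb : |b| ≤ 1 / 8) (hc : |c| ≤ 1 / 8) (hb' : |b'| ≤ 1 / 8) (hc' : |c'| ≤ 1 / 8) :
    GLH_B (4 * K) 1 (|b - b'| + |c - c'|) (p g) (p g) ∧
    GLH_B (4 * K) 1 (|b - b'| + |c - c'|) (p (g * dg b c)) (p (g * dg b' c')) ∧
    GLH_B (4 * K) 1 (|b - b'| + |c - c'|) (p (g * dg b c) - p g) (p (g * dg b' c') - p g) := by
  have hd : 0 ≤ |b - b'| + |c - c'| := by positivity
  have h1 : GLH_B (2 * K) 1 (|b - b'| + |c - c'|) (p g) (p g) :=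
    GLH_cst (by linarith [pb g]) hd
  have h2 : GLH_B (2 * K) 1 (|b - b'| + |c - c'|) (p (g * dg b c)) (p (g * dg b' c')) := by
    refine ⟨by linarith [pb (g * dg b c)], by linarith [pb (g * dg b' c')], ?_⟩
    have h3 := lip (g * dg b c) ((dg b c)⁻¹ * dg b' c')
    have e : g * dg b c * ((dg b c)⁻¹ * dg b' c') = g * dg b' c' := by
      rw [mul_assoc, mul_inv_cancel_left]
    rw [e, abs_sub_comm] at h3
    have h4 := UVX_nd hb hc hb' hc'
    refine h3.trans ?_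
    have h5 := mul_le_mul_of_nonneg_left h4 (by linarith : (0 : ℝ) ≤ K)
    refine h5.trans (le_of_eq ?_)
    ring
  refine ⟨h1.mono (by linarith) zero_le_one hd, h2.mono (by linarith) zero_le_one hd, ?_⟩
  have h3 := h2.add h1.neg
  have e : 2 * K + 2 * K = 4 * K := by ring
  rw [e] at h3
  exact h3

theorem GLH_pe (h1 : NMB_stmt) {K : ℝ} (hK : 1 ≤ K) {p : SL(2, ℝ) → ℝ} (pb : ∀ g, |p g| ≤ K)
    (lip : ∀ g D, |p (g * D) - p g| ≤ K * nm D)
    (sd : ∀ g E D, nm D ≤ 1 / K →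
      |p (g * E * D) - p (g * E) - p (g * D) + p g| ≤ K * nm D * nm E)
    {g E : SL(2, ℝ)} {b c : ℝ}
    (hb : |b| ≤ 1 / (64 * K ^ 2)) (hc : |c| ≤ 1 / (64 * K ^ 2)) :
    GLH_B (4 * K) 1 (nm E) (p (g * E)) (p g) ∧
    GLH_B (4 * K) 1 (nm E) (p (g * E * dg b c)) (p (g * dg b c)) ∧
    GLH_B (4 * K) (|b| + |c|) (nm E) (p (g * E * dg b c) - p (g * E)) (p (g * dg b c) - p g) := by
  obtain ⟨n0, -, -, -, -, -, -, ndg, -⟩ := h1
  obtain ⟨hb8, hbK, -⟩ := GLH_sm hK hb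
  obtain ⟨hc8, hcK, -⟩ := GLH_sm hK hc
  have hd := n0 E
  have hD0 := n0 (dg b c)
  have hD := ndg b c hb8 hc8
  have hDK : nm (dg b c) ≤ 1 / K := hD.trans (max_le hbK hcK)
  have hDs : nm (dg b c) ≤ |b| + |c| := hD.trans
    (max_le (le_add_of_nonneg_right (abs_nonneg c)) (le_add_of_nonneg_left (abs_nonneg b)))
  have hD1 : nm (dg b c) ≤ 1 := hD.trans (max_le (by linarith) (by linarith))
  have hs := sd g E (dg b c) hDK
  have hs0 : 0 ≤ |b| + |c| := by positivity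
  have hK0 : 0 ≤ K := by linarith
  have hKd : 0 ≤ K * nm E := mul_nonneg hK0 hd
  have hKs : 0 ≤ K * (|b| + |c|) := mul_nonneg hK0 hs0
  refine ⟨⟨by linarith [pb (g * E)], by linarith [pb g], ?_⟩,
    ⟨by linarith [pb (g * E * dg b c)], by linarith [pb (g * dg b c)], ?_⟩, ⟨?_, ?_, ?_⟩⟩
  · refine (lip g E).trans ?_
    nlinarith
  · have e : p (g * E * dg b c) - p (g * dg b c) =
        (p (g * E * dg b c) - p (g * E) - p (g * dg b c) + p g) + (p (g * E) - p g) := by ring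
    rw [e]
    refine (UVX_add hs (lip g E)).trans ?_
    have h5 : K * nm (dg b c) * nm E ≤ K * 1 * nm E :=
      mul_le_mul_of_nonneg_right (mul_le_mul_of_nonneg_left hD1 hK0) hd
    nlinarith
  · refine (lip (g * E) (dg b c)).trans ?_
    have h5 := mul_le_mul_of_nonneg_left hDs hK0
    nlinarith
  · refine (lip g (dg b c)).trans ?_
    have h5 := mul_le_mul_of_nonneg_left hDs hK0
    nlinarith
  · have e : p (g * E * dg b c) - p (g * E) - (p (g * dg b c) - p g) =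
        p (g * E * dg b c) - p (g * E) - p (g * dg b c) + p g := by ring
    rw [e]
    refine hs.trans ?_
    have h5 : K * nm (dg b c) * nm E ≤ K * (|b| + |c|) * nm E :=
      mul_le_mul_of_nonneg_right (mul_le_mul_of_nonneg_left hDs hK0) hd
    have h6 : 0 ≤ K * (|b| + |c|) * nm E := mul_nonneg hKs hd
    nlinarith

theorem GLH_proof (h1 : VQE.NMB_stmt) : GLH_stmt := by
  intro K hK
  obtain ⟨B, hB⟩ := GLH_alg (4 * K) (2 * K) (by linarith) (by linarith)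
  have hK2 : 1 ≤ K ^ 2 := by nlinarith
  have hC1 : 64 * K ^ 2 ≤ 64 * K ^ 2 + |B| := le_add_of_nonneg_right (abs_nonneg B)
  refine ⟨64 * K ^ 2 + |B|, by linarith, ?_⟩
  intro X pa qa qd hX g E b c b' c' hb hc hb' hc'
  have hCB : B ≤ 64 * K ^ 2 + |B| := by linarith [le_abs_self B]
  have hle : 1 / (64 * K ^ 2 + |B|) ≤ 1 / (64 * K ^ 2) :=
    one_div_le_one_div_of_le (by linarith) hC1
  have hb := hb.trans hle
  have hc := hc.trans hle
  have hb' := hb'.trans hle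
  have hc' := hc'.trans hle
  obtain ⟨hb8, hbK, hbs⟩ := GLH_sm hK hb
  obtain ⟨hc8, hcK, hcs⟩ := GLH_sm hK hc
  obtain ⟨hb8', hbK', hbs'⟩ := GLH_sm hK hb'
  obtain ⟨hc8', hcK', hcs'⟩ := GLH_sm hK hc'
  have hKi : 0 < 1 / K := by
    have : 0 < K := by linarith
    positivity
  have pb : ∀ g, |X.p g| ≤ K := fun g => by
    rw [abs_of_pos (lt_of_lt_of_le hKi (hX.pb g).1)]
    exact (hX.pb g).2
  have qb : ∀ g, |X.q g| ≤ K := fun g => (hX.qb g).1
  have n0 := h1.1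
  -- first part
  have key1 : ∀ x x' : ℝ, |x| ≤ 1 / 8 → |x'| ≤ 1 / 8 → |x - x'| ≤ |b - b'| + |c - c'| →
      |(((X.p (g * dg b c) * sg X.p X.q g b c + X.p g) / 2 - 1) * x +
        √(1 + b * c) * (X.q (g * dg b c) * sg X.p X.q g b c - X.q g)) -
      (((X.p (g * dg b' c') * sg X.p X.q g b' c' + X.p g) / 2 - 1) * x' +
        √(1 + b' * c') * (X.q (g * dg b' c') * sg X.p X.q g b' c' - X.q g))| ≤
      (64 * K ^ 2 + |B|) * (|b - b'| + |c - c'|) := by
    intro x x' hx hx' hxx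
    have hd : 0 ≤ |b - b'| + |c - c'| := by positivity
    obtain ⟨p1, p2, p3⟩ := GLH_ph hK pb (fun g D => (hX.lip g D).1) (g := g) hb8 hc8 hb8' hc8'
    obtain ⟨q1, q2, q3⟩ := GLH_ph hK qb (fun g D => (hX.lip g D).2.1) (g := g) hb8 hc8 hb8' hc8'
    obtain ⟨sa1, sa2, sa3⟩ := UVX_sq hb8 hc8
    obtain ⟨sb1, sb2, sb3⟩ := UVX_sq hb8' hc8'
    have hab : GLH_B (4 * K) 1 (|b - b'| + |c - c'|) (√(1 + b * c)) (√(1 + b' * c')) := by
      refine ⟨?_, ?_, ?_⟩
      · rw [abs_of_nonneg (Real.sqrt_nonneg _)]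
        linarith
      · rw [abs_of_nonneg (Real.sqrt_nonneg _)]
        linarith
      · refine (UVX_sd hb8 hc8 hb8' hc8').trans ?_
        nlinarith
    have hxB : GLH_B (4 * K) 1 (|b - b'| + |c - c'|) x x' := by
      refine ⟨by linarith, by linarith, hxx.trans ?_⟩
      nlinarith
    have heB : GLH_B (4 * K) 1 (|b - b'| + |c - c'|) (b + c) (b' + c') := by
      refine ⟨?_, ?_, ?_⟩
      · exact (UVX_add hb8 hc8).trans (by linarith)
      · exact (UVX_add hb8' hc8').trans (by linarith)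
      · have e : b + c - (b' + c') = (b - b') + (c - c') := by ring
        rw [e]
        refine (abs_add_le _ _).trans ?_
        nlinarith
    have hfin := hB 1 (|b - b'| + |c - c'|) _ _ _ _ _ _ _ _ _ _ _ _ x x' (sg X.p X.q g b c)
      (sg X.p X.q g b' c') zero_le_one le_rfl hd hab p1 p2 q1 q2 p3 q3 hxB heB
      (GLH_low hK sa1 hb hc (hX.pb _).1 (qb _)) (GLH_low hK sb1 hb' hc' (hX.pb _).1 (qb _)) rfl rfl
    refine hfin.bd.trans ?_
    have := mul_le_mul_of_nonneg_right hCB hd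
    linarith
  -- second part
  have key2 : ∀ (b c : ℝ), |b| ≤ 1 / (64 * K ^ 2) → |c| ≤ 1 / (64 * K ^ 2) → ∀ (E : SL(2, ℝ)) (x : ℝ),
      |x| ≤ |b| + |c| →
      GLH_B B (|b| + |c|) (nm E)
      (((X.p (g * E * dg b c) * sg X.p X.q (g * E) b c + X.p (g * E)) / 2 - 1) * x +
        √(1 + b * c) * (X.q (g * E * dg b c) * sg X.p X.q (g * E) b c - X.q (g * E)))
      (((X.p (g * dg b c) * sg X.p X.q g b c + X.p g) / 2 - 1) * x +
        √(1 + b * c) * (X.q (g * dg b c) * sg X.p X.q g b c - X.q g)) := by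
    intro b c hb hc E x hx
    obtain ⟨hb8, hbK, hbs⟩ := GLH_sm hK hb
    obtain ⟨hc8, hcK, hcs⟩ := GLH_sm hK hc
    have hd : 0 ≤ nm E := n0 E
    have hs0 : 0 ≤ |b| + |c| := by positivity
    have hs1 : |b| + |c| ≤ 1 := by linarith
    obtain ⟨p1, p2, p3⟩ := GLH_pe h1 hK pb (fun g D => (hX.lip g D).1)
      (fun g E D h => (hX.sd g E D h).1) (g := g) (E := E) hb hc
    obtain ⟨q1, q2, q3⟩ := GLH_pe h1 hK qb (fun g D => (hX.lip g D).2.1)
      (fun g E D h => (hX.sd g E D h).2) (g := g) (E := E) hb hc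
    obtain ⟨sa1, sa2, sa3⟩ := UVX_sq hb8 hc8
    have hab : GLH_B (4 * K) 1 (nm E) (√(1 + b * c)) (√(1 + b * c)) := by
      refine GLH_cst ?_ hd
      rw [abs_of_nonneg (Real.sqrt_nonneg _)]
      linarith
    have hxB : GLH_B (4 * K) (|b| + |c|) (nm E) x x := GLH_cst (hx.trans (by nlinarith)) hd
    have heB : GLH_B (4 * K) (|b| + |c|) (nm E) (b + c) (b + c) :=
      GLH_cst ((abs_add_le b c).trans (by nlinarith)) hd
    exact hB (|b| + |c|) (nm E) _ _ _ _ _ _ _ _ _ _ _ _ x x (sg X.p X.q (g * E) b c)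
      (sg X.p X.q g b c) hs0 hs1 hd hab p1 p2 q1 q2 p3 q3 hxB heB
      (GLH_low hK sa1 hb hc (hX.pb _).1 (qb _)) (GLH_low hK sa1 hb hc (hX.pb _).1 (qb _)) rfl rfl
  have hz : |(0 : ℝ)| ≤ 1 / (64 * K ^ 2) := by
    rw [abs_zero]
    positivity
  have hz0 := key2 0 0 hz hz 1 0 (by simp)
  have hz1 := hz0.ty
  have hz3 : B * (|(0 : ℝ)| + |(0 : ℝ)|) = 0 := by rw [abs_zero, add_zero, mul_zero]
  rw [hz3] at hz1
  have hz2 := abs_nonpos_iff.mp hz1
  refine ⟨?_, ?_, ?_, ?_, ?_, ?_⟩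
  · exact key1 b b' hb8 hb8' (le_add_of_nonneg_right (abs_nonneg _))
  · exact key1 c c' hc8 hc8' (le_add_of_nonneg_left (abs_nonneg _))
  · exact hz2
  · exact hz2
  · refine (key2 b c hb hc E b (le_add_of_nonneg_right (abs_nonneg _))).bd.trans ?_
    have h3 : 0 ≤ (|b| + |c|) * nm E := mul_nonneg (by positivity) (n0 E)
    have h4 := mul_le_mul_of_nonneg_right hCB h3
    nlinarith
  · refine (key2 b c hb hc E c (le_add_of_nonneg_left (abs_nonneg _))).bd.trans ?_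
    have h3 : 0 ≤ (|b| + |c|) * nm E := mul_nonneg (by positivity) (n0 E)
    have h4 := mul_le_mul_of_nonneg_right hCB h3
    nlinarith

end Pool.Agent.VNE
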